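import Mathlib

/-!
No injective compact operator is the L-asymptotic limit of a power bounded operator on an
infinite-dimensional complex Hilbert space.

Proof. The operator A satisfies A = (T^n)^* A T^n. Compactness of A makes the points A T^n x
precompact, so A (T^m x - x) is small for arbitrarily large m. The adjoint of A has dense range,
so T^m x is weakly close to x, which gives the bound of the norm of x by M times the norm of
T^N x for every N. Hence A is bounded below, and a compact operator which is bounded below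
lives on a finite-dimensional space.
-/

open Filter Topology

namespace Pool.Agent.Lib.MP_f651fd_an

theorem main {H : Type*} [NormedAddCommGroup H] [InnerProductSpace ℂ H] [CompleteSpace H]
    (hH : ¬ FiniteDimensional ℂ H)
    (L : BoundedContinuousFunction ℕ ℂ →ₗ[ℂ] ℂ)
    (hpos : ∀ u : BoundedContinuousFunction ℕ ℂ, (∀ n, 0 ≤ (u n).re ∧ (u n).im = 0) →
      0 ≤ (L u).re ∧ (L u).im = 0)
    (hshift : ∀ u v : BoundedContinuousFunction ℕ ℂ, (∀ n, v n = u (n + 1)) → L v = L u)
    (hone : ∀ u : BoundedContinuousFunction ℕ ℂ, (∀ n, u n = 1) → L u = 1)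
    (T : H →L[ℂ] H) (hT : ∃ M : ℝ, ∀ n : ℕ, ‖T ^ n‖ ≤ M)
    (A : H →L[ℂ] H)
    (hA : ∀ (x y : H) (u : BoundedContinuousFunction ℕ ℂ),
      (∀ n, u n = inner ℂ ((T ^ n) x) ((T ^ n) y)) → inner ℂ (A x) y = L u) :
    ¬ (IsCompactOperator A ∧ Function.Injective A) := by
  rintro ⟨hc, hinj⟩
  obtain ⟨M₀, hM₀⟩ := hT
  set M : ℝ := max M₀ 1 with hMdef
  have hM1 : 1 ≤ M := le_max_right _ _
  have hMpos : 0 < M := by linarith
  have hM : ∀ (n : ℕ) (x : H), ‖(T ^ n) x‖ ≤ M * ‖x‖ := fun n x =>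
    ((T ^ n).le_opNorm x).trans
      (mul_le_mul_of_nonneg_right ((hM₀ n).trans (le_max_left _ _)) (norm_nonneg _))
  -- the bounded sequence attached to a pair of vectors
  have hmem : ∀ (x y : H) (n : ℕ),
      ‖(inner ℂ ((T ^ n) x) ((T ^ n) y) : ℂ)‖ ≤ M * ‖x‖ * (M * ‖y‖) := by
    intro x y n
    exact (norm_inner_le_norm _ _).trans
      (mul_le_mul (hM n x) (hM n y) (norm_nonneg _) (by positivity))
  let u : H → H → BoundedContinuousFunction ℕ ℂ := fun x y =>
    BoundedContinuousFunction.ofNormedAddCommGroupDiscrete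
      (fun n : ℕ => (inner ℂ ((T ^ n) x) ((T ^ n) y) : ℂ)) _ (hmem x y)
  have hu : ∀ x y n, u x y n = inner ℂ ((T ^ n) x) ((T ^ n) y) := fun _ _ _ => rfl
  have hAu : ∀ x y, inner ℂ (A x) y = L (u x y) := fun x y => hA x y _ (hu x y)
  -- invariance
  have hinv1 : ∀ x y, inner ℂ (A (T x)) (T y) = inner ℂ (A x) y := by
    intro x y
    rw [hAu, hAu]
    apply hshift
    intro n
    rw [hu, hu, pow_succ]
    rfl
  have hinv : ∀ (n : ℕ) x y, inner ℂ (A ((T ^ n) x)) ((T ^ n) y) = inner ℂ (A x) y := by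
    intro n
    induction n with
    | zero => intro x y; simp
    | succ n ih =>
      intro x y
      rw [pow_succ']
      change inner ℂ (A (T ((T ^ n) x))) (T ((T ^ n) y)) = _
      rw [hinv1, ih]
  -- lower bound from lower bounds on the orbit
  have hlow : ∀ (x : H) (c : ℝ), (∀ n : ℕ, c ≤ ‖(T ^ n) x‖ ^ 2) →
      c ≤ (inner ℂ (A x) x : ℂ).re := by
    intro x c hc'
    let e : BoundedContinuousFunction ℕ ℂ := BoundedContinuousFunction.const ℕ (1 : ℂ)
    have he : L e = 1 := hone e (fun _ => rfl)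
    have h1 := hpos (u x x - (c : ℂ) • e) (by
      intro n
      have : (u x x - (c : ℂ) • e) n = ((‖(T ^ n) x‖ ^ 2 - c : ℝ) : ℂ) := by
        rw [BoundedContinuousFunction.sub_apply, BoundedContinuousFunction.smul_apply, hu,
          inner_self_eq_norm_sq_to_K]
        change _ - (c : ℂ) • (1 : ℂ) = _
        simp
      rw [this]
      constructor
      · rw [Complex.ofReal_re]; linarith [hc' n]
      · rw [Complex.ofReal_im])
    rw [map_sub, map_smul, he, ← hAu] at h1
    have := h1.1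
    simp at this
    linarith
  -- recurrence
  have hrec : ∀ (x : H) (ε : ℝ), 0 < ε → ∀ N : ℕ, ∃ m, N ≤ m ∧
      ∀ y, ‖(inner ℂ (A ((T ^ m) x - x)) y : ℂ)‖ ≤ ε * ‖y‖ := by
    intro x ε hε N
    obtain ⟨K, hK, hKsub⟩ := IsCompactOperator.image_closedBall_subset_compact
      (f := (A : H →ₗ[ℂ] H)) hc (M * ‖x‖)
    have hin : ∀ n : ℕ, A ((T ^ n) x) ∈ K := fun n =>
      hKsub ⟨(T ^ n) x, by simpa using hM n x, rfl⟩
    obtain ⟨z, -, φ, hφ, hlim⟩ := hK.tendsto_subseq hin
    have hcau := hlim.cauchySeq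
    rw [Metric.cauchySeq_iff'] at hcau
    obtain ⟨j, hj⟩ := hcau (ε / M) (by positivity)
    have hge : φ j + N ≤ φ (j + N) := by
      have := hφ.add_le_nat N j
      rw [add_comm N j] at this
      omega
    refine ⟨φ (j + N) - φ j, by omega, fun y => ?_⟩
    have hd := hj (j + N) (by omega)
    rw [← hinv (φ j)]
    have hEq : (T ^ φ j) ((T ^ (φ (j + N) - φ j)) x - x)
        = (T ^ φ (j + N)) x - (T ^ φ j) x := by
      rw [map_sub]
      congr 1
      rw [← mul_apply_eq_comp, ← pow_add]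
      congr 2
      omega
    rw [hEq, map_sub]
    have hd' : ‖A ((T ^ φ (j + N)) x) - A ((T ^ φ j) x)‖ ≤ ε / M := by
      rw [← dist_eq_norm]
      exact hd.le
    calc _ ≤ ‖A ((T ^ φ (j + N)) x) - A ((T ^ φ j) x)‖ * ‖(T ^ φ j) y‖ := norm_inner_le_norm _ _
      _ ≤ ε / M * (M * ‖y‖) := mul_le_mul hd' (hM _ y) (norm_nonneg _) (by positivity)
      _ = ε * ‖y‖ := by field_simp
  -- density of the range of the adjoint
  have hdense : ∀ (x : H) (δ : ℝ), 0 < δ → ∃ y, ‖x - ContinuousLinearMap.adjoint A y‖ < δ := by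
    intro x δ hδ
    have hker : A.ker = ⊥ := LinearMap.ker_eq_bot.2 hinj
    have h1 : (ContinuousLinearMap.adjoint A).range.topologicalClosure = ⊤ := by
      rw [← ContinuousLinearMap.orthogonal_ker, hker, Submodule.bot_orthogonal_eq_top]
    have h2 : x ∈ closure ((ContinuousLinearMap.adjoint A).range : Set H) := by
      rw [← Submodule.topologicalClosure_coe, h1]
      trivial
    obtain ⟨w, ⟨y, rfl⟩, hw⟩ := Metric.mem_closure_iff.1 h2 δ hδ
    exact ⟨y, by rw [← dist_eq_norm]; exact hw⟩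
  -- the orbit is bounded below
  have horb : ∀ (x : H) (N : ℕ), ‖x‖ ≤ M * ‖(T ^ N) x‖ := by
    intro x N
    rcases eq_or_lt_of_le (norm_nonneg x) with h0 | h0
    · rw [← h0]; positivity
    have key : ‖x‖ * ‖x‖ ≤ M * ‖(T ^ N) x‖ * ‖x‖ := by
      apply le_of_forall_pos_le_add
      intro η hη
      obtain ⟨y, hy⟩ := hdense x (η / 2 / ((M + 1) * ‖x‖)) (by positivity)
      obtain ⟨m, hm, hmy⟩ := hrec x (η / 2 / (‖y‖ + 1)) (by positivity) N
      set w := (T ^ m) x - x with hw
      have hwn : ‖w‖ ≤ (M + 1) * ‖x‖ := by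
        calc ‖w‖ ≤ ‖(T ^ m) x‖ + ‖x‖ := norm_sub_le _ _
          _ ≤ M * ‖x‖ + ‖x‖ := by linarith [hM m x]
          _ = (M + 1) * ‖x‖ := by ring
      have h1 : ‖(inner ℂ w x : ℂ)‖ ≤ η := by
        have hsplit : (inner ℂ w x : ℂ) = inner ℂ w (x - ContinuousLinearMap.adjoint A y)
            + inner ℂ (A w) y := by
          rw [inner_sub_right, ContinuousLinearMap.adjoint_inner_right]
          ring
        rw [hsplit]
        have ha : ‖(inner ℂ w (x - ContinuousLinearMap.adjoint A y) : ℂ)‖ ≤ η / 2 := by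
          calc _ ≤ ‖w‖ * ‖x - ContinuousLinearMap.adjoint A y‖ := norm_inner_le_norm _ _
            _ ≤ ((M + 1) * ‖x‖) * (η / 2 / ((M + 1) * ‖x‖)) :=
              mul_le_mul hwn hy.le (norm_nonneg _) (by positivity)
            _ = η / 2 := by field_simp
        have hb : ‖(inner ℂ (A w) y : ℂ)‖ ≤ η / 2 := by
          calc _ ≤ η / 2 / (‖y‖ + 1) * ‖y‖ := hmy y
            _ ≤ η / 2 / (‖y‖ + 1) * (‖y‖ + 1) := by gcongr; linarith
            _ = η / 2 := by field_simp
        calc _ ≤ _ := norm_add_le _ _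
          _ ≤ η / 2 + η / 2 := add_le_add ha hb
          _ = η := by ring
      have h2 : ‖(T ^ m) x‖ ≤ M * ‖(T ^ N) x‖ := by
        have : (T ^ m) x = (T ^ (m - N)) ((T ^ N) x) := by
          rw [← mul_apply_eq_comp, ← pow_add]
          congr 2
          omega
        rw [this]
        exact hM _ _
      have h3 : (inner ℂ x x : ℂ) = inner ℂ ((T ^ m) x) x - inner ℂ w x := by
        rw [hw, inner_sub_left]
        ring
      calc ‖x‖ * ‖x‖ = ‖(inner ℂ x x : ℂ)‖ := by
            rw [inner_self_eq_norm_sq_to_K]; simp [sq]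
        _ ≤ ‖(inner ℂ ((T ^ m) x) x : ℂ)‖ + ‖(inner ℂ w x : ℂ)‖ := by
            rw [h3]; exact norm_sub_le _ _
        _ ≤ ‖(T ^ m) x‖ * ‖x‖ + η := add_le_add (norm_inner_le_norm _ _) h1
        _ ≤ M * ‖(T ^ N) x‖ * ‖x‖ + η := by gcongr
    exact le_of_mul_le_mul_right key h0
  -- A is bounded below
  have hbelow : ∀ x : H, ‖x‖ ≤ M ^ 2 * ‖A x‖ := by
    intro x
    rcases eq_or_lt_of_le (norm_nonneg x) with h0 | h0
    · rw [← h0]; positivity
    have h1 : ‖x‖ ^ 2 / M ^ 2 ≤ (inner ℂ (A x) x : ℂ).re := by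
      apply hlow
      intro n
      rw [div_le_iff₀ (by positivity)]
      have := horb x n
      calc ‖x‖ ^ 2 ≤ (M * ‖(T ^ n) x‖) ^ 2 := by gcongr
        _ = _ := by ring
    have h2 : (inner ℂ (A x) x : ℂ).re ≤ ‖A x‖ * ‖x‖ :=
      (Complex.re_le_norm _).trans (norm_inner_le_norm _ _)
    have h3 : ‖x‖ * ‖x‖ ≤ M ^ 2 * ‖A x‖ * ‖x‖ := by
      have := h1.trans h2
      rw [div_le_iff₀ (by positivity)] at this
      nlinarith
    exact le_of_mul_le_mul_right h3 h0
  have hanti : AntilipschitzWith (Real.toNNReal (M ^ 2)) A :=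
    ContinuousLinearMap.antilipschitz_of_bound A (fun x => by
      rw [Real.coe_toNNReal _ (by positivity)]; exact hbelow x)
  have hui : IsUniformInducing A := hanti.isUniformInducing A.uniformContinuous
  obtain ⟨K, hK, hKsub⟩ := IsCompactOperator.image_closedBall_subset_compact
    (f := (A : H →ₗ[ℂ] H)) hc 1
  apply hH
  refine FiniteDimensional.of_totallyBounded_nhds_zero ℂ (Metric.closedBall_mem_nhds (0 : H) one_pos) ?_
  have hsub : Metric.closedBall (0 : H) 1 ⊆ A ⁻¹' K := fun x hx => hKsub ⟨x, hx, rfl⟩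
  exact TotallyBounded.subset hsub (totallyBounded_preimage hui hK.totallyBounded)

end Pool.Agent.Lib.MP_f651fd_an
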