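import Mathlib

/-!
A compact L-asymptotic limit of a power bounded operator has finite rank, and the reciprocals of
its nonzero eigenvalues have mean at most one.
-/

open Filter Topology

namespace Pool.Agent.Lib.MP_f651fd_an

theorem L_ge (L : BoundedContinuousFunction ℕ ℂ →ₗ[ℂ] ℂ)
    (hpos : ∀ u : BoundedContinuousFunction ℕ ℂ, (∀ n, 0 ≤ (u n).re ∧ (u n).im = 0) →
      0 ≤ (L u).re ∧ (L u).im = 0)
    (hone : ∀ u : BoundedContinuousFunction ℕ ℂ, (∀ n, u n = 1) → L u = 1)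
    (u : BoundedContinuousFunction ℕ ℂ) (c : ℝ) (v : ℕ → ℝ) (hu : ∀ n, u n = v n)
    (h : ∀ n, c ≤ v n) : c ≤ (L u).re ∧ (L u).im = 0 := by
  let e : BoundedContinuousFunction ℕ ℂ := BoundedContinuousFunction.const ℕ (1 : ℂ)
  have h1 := hpos (u - (c : ℂ) • e) fun n => by
    have : (u - (c : ℂ) • e) n = ((v n - c : ℝ) : ℂ) := by simp [e, hu]
    rw [this, Complex.ofReal_re, Complex.ofReal_im]
    exact ⟨by linarith [h n], rfl⟩
  rw [map_sub, map_smul, hone e fun _ => rfl] at h1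
  simpa using h1

theorem trace_ineq {k : ℕ} (t : Fin k → ℝ) (ht : ∀ i, 0 < t i) (m : Matrix (Fin k) (Fin k) ℂ)
    (h : ∀ i l, ∑ j, (t j : ℂ) * (starRingEnd ℂ (m j i) * m j l) = if i = l then (t i : ℂ) else 0) :
    ∑ i, (t i)⁻¹ * ∑ j, ‖m j i‖ ^ 2 = ∑ j, (t j)⁻¹ := by
  have t0 : ∀ i, (t i : ℂ) ≠ 0 := fun i => by exact_mod_cast (ht i).ne'
  have h1 : (Matrix.of fun i j => (t i : ℂ)⁻¹ * (t j * starRingEnd ℂ (m j i))) * m = 1 := by
    ext i l
    simp only [Matrix.mul_apply, Matrix.of_apply, mul_assoc, ← Finset.mul_sum, h, Matrix.one_apply]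
    split_ifs
    exacts [inv_mul_cancel₀ (t0 i), mul_zero _]
  simp only [Finset.mul_sum]
  rw [Finset.sum_comm]
  refine Finset.sum_congr rfl fun j _ => ?_
  have h2 := Matrix.ext_iff.2 (mul_eq_one_comm.1 h1) j j
  simp only [Matrix.mul_apply, Matrix.of_apply, Matrix.one_apply_eq] at h2
  have h3 : ((t j * ∑ i, (t i)⁻¹ * ‖m j i‖ ^ 2 : ℝ) : ℂ) = 1 := by
    rw [← h2]
    push_cast
    rw [Finset.mul_sum]
    refine Finset.sum_congr rfl fun i _ => ?_
    rw [← Complex.mul_conj']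
    ring
  exact eq_inv_of_mul_eq_one_right (by exact_mod_cast h3)

theorem nec {H : Type*} [NormedAddCommGroup H] [InnerProductSpace ℂ H] [CompleteSpace H]
    (L : BoundedContinuousFunction ℕ ℂ →ₗ[ℂ] ℂ)
    (hpos : ∀ u : BoundedContinuousFunction ℕ ℂ, (∀ n, 0 ≤ (u n).re ∧ (u n).im = 0) →
      0 ≤ (L u).re ∧ (L u).im = 0)
    (hshift : ∀ u v : BoundedContinuousFunction ℕ ℂ, (∀ n, v n = u (n + 1)) → L v = L u)
    (hone : ∀ u : BoundedContinuousFunction ℕ ℂ, (∀ n, u n = 1) → L u = 1)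
    (T : H →L[ℂ] H) (hT : ∃ M : ℝ, ∀ n : ℕ, ‖T ^ n‖ ≤ M)
    (A : H →L[ℂ] H)
    (hA : ∀ (x y : H) (u : BoundedContinuousFunction ℕ ℂ),
      (∀ n, u n = inner ℂ ((T ^ n) x) ((T ^ n) y)) → inner ℂ (A x) y = L u)
    (hc : IsCompactOperator A) :
    ∃ (k : ℕ) (e : Fin k → H) (t : Fin k → ℝ), Orthonormal ℂ e ∧ (∀ i, 0 < t i) ∧
      ∑ i, (t i)⁻¹ ≤ k ∧ ∀ x, A x = ∑ i, ((t i : ℂ) * inner ℂ (e i) x) • e i := by
  obtain ⟨M₀, hM₀⟩ := hT
  set M : ℝ := max M₀ 1 with hMdef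
  have hM1 : 1 ≤ M := le_max_right _ _
  have hMpos : 0 < M := by linarith
  have hM : ∀ (n : ℕ) (x : H), ‖(T ^ n) x‖ ≤ M * ‖x‖ := fun n x =>
    ((T ^ n).le_opNorm x).trans
      (mul_le_mul_of_nonneg_right ((hM₀ n).trans (le_max_left _ _)) (norm_nonneg _))
  -- the bounded sequence attached to a pair of vectors
  have hmem : ∀ (x y : H) (n : ℕ),
      ‖(inner ℂ ((T ^ n) x) ((T ^ n) y) : ℂ)‖ ≤ M * ‖x‖ * (M * ‖y‖) := by
    intro x y n
    exact (norm_inner_le_norm _ _).trans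
      (mul_le_mul (hM n x) (hM n y) (norm_nonneg _) (by positivity))
  let u : H → H → BoundedContinuousFunction ℕ ℂ := fun x y =>
    BoundedContinuousFunction.ofNormedAddCommGroupDiscrete
      (fun n : ℕ => (inner ℂ ((T ^ n) x) ((T ^ n) y) : ℂ)) _ (hmem x y)
  have hu : ∀ x y n, u x y n = inner ℂ ((T ^ n) x) ((T ^ n) y) := fun _ _ _ => rfl
  have hAu : ∀ x y, inner ℂ (A x) y = L (u x y) := fun x y => hA x y _ (hu x y)
  -- invariance
  have hinv1 : ∀ x y, inner ℂ (A (T x)) (T y) = inner ℂ (A x) y := by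
    intro x y
    rw [hAu, hAu]
    apply hshift
    intro n
    rw [hu, hu, pow_succ]
    rfl
  have hinv : ∀ (n : ℕ) x y, inner ℂ (A ((T ^ n) x)) ((T ^ n) y) = inner ℂ (A x) y := by
    intro n
    induction n with
    | zero => intro x y; simp
    | succ n ih =>
      intro x y
      rw [pow_succ']
      change inner ℂ (A (T ((T ^ n) x))) (T ((T ^ n) y)) = _
      rw [hinv1, ih]
  -- lower bound from lower bounds on the orbit
  have hu2 : ∀ x n, u x x n = ((‖(T ^ n) x‖ ^ 2 : ℝ) : ℂ) := fun x n => by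
    rw [hu, inner_self_eq_norm_sq_to_K]
    simp
  have hlow : ∀ (x : H) (c : ℝ), (∀ n : ℕ, c ≤ ‖(T ^ n) x‖ ^ 2) →
      c ≤ (inner ℂ (A x) x : ℂ).re := fun x c h => by
    rw [hAu]
    exact (L_ge L hpos hone _ c _ (hu2 x) h).1
  have hsym : (A : H →ₗ[ℂ] H).IsSymmetric :=
    (LinearMap.isSymmetric_iff_inner_map_self_real _).2 fun x => Complex.conj_eq_iff_im.2 (by
      rw [ContinuousLinearMap.coe_coe, hAu]
      exact (L_ge L hpos hone _ 0 _ (hu2 x) fun _ => by positivity).2)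
  -- recurrence
  have hrec : ∀ (x : H) (ε : ℝ), 0 < ε → ∀ N : ℕ, ∃ m, N ≤ m ∧
      ∀ y, ‖(inner ℂ (A ((T ^ m) x - x)) y : ℂ)‖ ≤ ε * ‖y‖ := by
    intro x ε hε N
    obtain ⟨K, hK, hKsub⟩ := IsCompactOperator.image_closedBall_subset_compact
      (f := (A : H →ₗ[ℂ] H)) hc (M * ‖x‖)
    have hin : ∀ n : ℕ, A ((T ^ n) x) ∈ K := fun n =>
      hKsub ⟨(T ^ n) x, by simpa using hM n x, rfl⟩
    obtain ⟨z, -, φ, hφ, hlim⟩ := hK.tendsto_subseq hin
    have hcau := hlim.cauchySeq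
    rw [Metric.cauchySeq_iff'] at hcau
    obtain ⟨j, hj⟩ := hcau (ε / M) (by positivity)
    have hge : φ j + N ≤ φ (j + N) := by
      have := hφ.add_le_nat N j
      rw [add_comm N j] at this
      omega
    refine ⟨φ (j + N) - φ j, by omega, fun y => ?_⟩
    have hd := hj (j + N) (by omega)
    rw [← hinv (φ j)]
    have hEq : (T ^ φ j) ((T ^ (φ (j + N) - φ j)) x - x)
        = (T ^ φ (j + N)) x - (T ^ φ j) x := by
      rw [map_sub]
      congr 1
      rw [← mul_apply_eq_comp, ← pow_add]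
      congr 2
      omega
    rw [hEq, map_sub]
    have hd' : ‖A ((T ^ φ (j + N)) x) - A ((T ^ φ j) x)‖ ≤ ε / M := by
      rw [← dist_eq_norm]
      exact hd.le
    calc _ ≤ ‖A ((T ^ φ (j + N)) x) - A ((T ^ φ j) x)‖ * ‖(T ^ φ j) y‖ := norm_inner_le_norm _ _
      _ ≤ ε / M * (M * ‖y‖) := mul_le_mul hd' (hM _ y) (norm_nonneg _) (by positivity)
      _ = ε * ‖y‖ := by field_simp
  -- density of the range of the adjoint
  have hdense : ∀ x ∈ A.kerᗮ, ∀ δ : ℝ, 0 < δ →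
      ∃ y, ‖x - ContinuousLinearMap.adjoint A y‖ < δ := by
    intro x hx δ hδ
    have h2 : x ∈ closure ((ContinuousLinearMap.adjoint A).range : Set H) := by
      rwa [← Submodule.topologicalClosure_coe, ← ContinuousLinearMap.orthogonal_ker]
    obtain ⟨w, ⟨y, rfl⟩, hw⟩ := Metric.mem_closure_iff.1 h2 δ hδ
    exact ⟨y, by rw [← dist_eq_norm]; exact hw⟩
  -- the orbit is bounded below
  have horb : ∀ x ∈ A.kerᗮ, ∀ N : ℕ, ‖x‖ ≤ M * ‖(T ^ N) x‖ := by
    intro x hx N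
    rcases eq_or_lt_of_le (norm_nonneg x) with h0 | h0
    · rw [← h0]; positivity
    have key : ‖x‖ * ‖x‖ ≤ M * ‖(T ^ N) x‖ * ‖x‖ := by
      apply le_of_forall_pos_le_add
      intro η hη
      obtain ⟨y, hy⟩ := hdense x hx (η / 2 / ((M + 1) * ‖x‖)) (by positivity)
      obtain ⟨m, hm, hmy⟩ := hrec x (η / 2 / (‖y‖ + 1)) (by positivity) N
      set w := (T ^ m) x - x with hw
      have hwn : ‖w‖ ≤ (M + 1) * ‖x‖ := by
        calc ‖w‖ ≤ ‖(T ^ m) x‖ + ‖x‖ := norm_sub_le _ _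
          _ ≤ M * ‖x‖ + ‖x‖ := by linarith [hM m x]
          _ = (M + 1) * ‖x‖ := by ring
      have h1 : ‖(inner ℂ w x : ℂ)‖ ≤ η := by
        have hsplit : (inner ℂ w x : ℂ) = inner ℂ w (x - ContinuousLinearMap.adjoint A y)
            + inner ℂ (A w) y := by
          rw [inner_sub_right, ContinuousLinearMap.adjoint_inner_right]
          ring
        rw [hsplit]
        have ha : ‖(inner ℂ w (x - ContinuousLinearMap.adjoint A y) : ℂ)‖ ≤ η / 2 := by
          calc _ ≤ ‖w‖ * ‖x - ContinuousLinearMap.adjoint A y‖ := norm_inner_le_norm _ _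
            _ ≤ ((M + 1) * ‖x‖) * (η / 2 / ((M + 1) * ‖x‖)) :=
              mul_le_mul hwn hy.le (norm_nonneg _) (by positivity)
            _ = η / 2 := by field_simp
        have hb : ‖(inner ℂ (A w) y : ℂ)‖ ≤ η / 2 := by
          calc _ ≤ η / 2 / (‖y‖ + 1) * ‖y‖ := hmy y
            _ ≤ η / 2 / (‖y‖ + 1) * (‖y‖ + 1) := by gcongr; linarith
            _ = η / 2 := by field_simp
        calc _ ≤ _ := norm_add_le _ _
          _ ≤ η / 2 + η / 2 := add_le_add ha hb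
          _ = η := by ring
      have h2 : ‖(T ^ m) x‖ ≤ M * ‖(T ^ N) x‖ := by
        have : (T ^ m) x = (T ^ (m - N)) ((T ^ N) x) := by
          rw [← mul_apply_eq_comp, ← pow_add]
          congr 2
          omega
        rw [this]
        exact hM _ _
      have h3 : (inner ℂ x x : ℂ) = inner ℂ ((T ^ m) x) x - inner ℂ w x := by
        rw [hw, inner_sub_left]
        ring
      calc ‖x‖ * ‖x‖ = ‖(inner ℂ x x : ℂ)‖ := by
            rw [inner_self_eq_norm_sq_to_K]; simp [sq]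
        _ ≤ ‖(inner ℂ ((T ^ m) x) x : ℂ)‖ + ‖(inner ℂ w x : ℂ)‖ := by
            rw [h3]; exact norm_sub_le _ _
        _ ≤ ‖(T ^ m) x‖ * ‖x‖ + η := add_le_add (norm_inner_le_norm _ _) h1
        _ ≤ M * ‖(T ^ N) x‖ * ‖x‖ + η := by gcongr
    exact le_of_mul_le_mul_right key h0
  -- A is bounded below
  have hb1 : ∀ x ∈ A.kerᗮ, ‖x‖ ^ 2 / M ^ 2 ≤ (inner ℂ (A x) x : ℂ).re := fun x hx => by
    apply hlow
    intro n
    rw [div_le_iff₀ (by positivity)]
    have := horb x hx n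
    calc ‖x‖ ^ 2 ≤ (M * ‖(T ^ n) x‖) ^ 2 := by gcongr
      _ = _ := by ring
  have hbelow : ∀ x ∈ A.kerᗮ, ‖x‖ ≤ M ^ 2 * ‖A x‖ := by
    intro x hx
    rcases eq_or_lt_of_le (norm_nonneg x) with h0 | h0
    · rw [← h0]; positivity
    have h2 : (inner ℂ (A x) x : ℂ).re ≤ ‖A x‖ * ‖x‖ :=
      (Complex.re_le_norm _).trans (norm_inner_le_norm _ _)
    have h3 : ‖x‖ * ‖x‖ ≤ M ^ 2 * ‖A x‖ * ‖x‖ := by
      have := (hb1 x hx).trans h2
      rw [div_le_iff₀ (by positivity)] at this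
      nlinarith
    exact le_of_mul_le_mul_right h3 h0
  have hfin : FiniteDimensional ℂ A.kerᗮ := by
    have hanti : AntilipschitzWith (Real.toNNReal (M ^ 2)) (A.comp A.kerᗮ.subtypeL) :=
      ContinuousLinearMap.antilipschitz_of_bound _ (fun x => by
        rw [Real.coe_toNNReal _ (by positivity)]; exact hbelow x x.2)
    have hui := hanti.isUniformInducing (A.comp A.kerᗮ.subtypeL).uniformContinuous
    obtain ⟨K, hK, hKsub⟩ := IsCompactOperator.image_closedBall_subset_compact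
      (f := (A : H →ₗ[ℂ] H)) hc 1
    refine FiniteDimensional.of_totallyBounded_nhds_zero ℂ
      (Metric.closedBall_mem_nhds (0 : A.kerᗮ) one_pos) ?_
    exact TotallyBounded.subset (fun x hx => hKsub ⟨x, by simpa using hx, rfl⟩)
      (totallyBounded_preimage hui hK.totallyBounded)
  have hran : ∀ x, A x ∈ A.kerᗮ := fun x => (Submodule.mem_orthogonal _ _).2 fun y hy => by
    have := hsym y x
    rw [ContinuousLinearMap.coe_coe] at this
    rw [← this, show A y = 0 from hy, inner_zero_left]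
  have hs := hsym.restrict_invariant (V := A.kerᗮ) fun x _ => hran x
  set k := Module.finrank ℂ A.kerᗮ with hk
  let b := hs.eigenvectorBasis hk.symm
  let t := hs.eigenvalues hk.symm
  have hb : ∀ i, A (b i) = (t i : ℂ) • (b i : H) := fun i =>
    congrArg Subtype.val (hs.apply_eigenvectorBasis hk.symm i)
  have ho : Orthonormal ℂ fun i => (b i : H) := b.orthonormal.comp_linearIsometry A.kerᗮ.subtypeₗᵢ
  have hbb : ∀ i l, inner ℂ (A (b i)) (b l : H) = if i = l then (t i : ℂ) else 0 := fun i l => by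
    rw [hb, inner_smul_left, Complex.conj_ofReal, orthonormal_iff_ite.1 ho, mul_ite, mul_one,
      mul_zero]
  have ht : ∀ i, 0 < t i := fun i => by
    have := hb1 _ (b i).2
    rw [hbb, if_pos rfl, ho.1 i, Complex.ofReal_re] at this
    exact lt_of_lt_of_le (by positivity) this
  have hAx : ∀ x, A x = ∑ i, ((t i : ℂ) * inner ℂ (b i : H) x) • (b i : H) := fun x => by
    have h1 := congrArg Subtype.val (b.sum_repr' ⟨A x, hran x⟩)
    simp only [Submodule.coe_sum, Submodule.coe_smul, Submodule.coe_inner] at h1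
    rw [← h1]
    refine Finset.sum_congr rfl fun i _ => ?_
    have := hsym (b i) x
    rw [ContinuousLinearMap.coe_coe] at this
    rw [← this, hb, inner_smul_left, Complex.conj_ofReal]
  refine ⟨k, fun i => b i, t, ho, ht, ?_, hAx⟩
  have h1 := (L_ge L hpos hone (∑ i, ((t i)⁻¹ : ℂ) • u (b i) (b i)) (∑ i, (t i)⁻¹)
    (fun n => ∑ i, (t i)⁻¹ * ‖(T ^ n) (b i)‖ ^ 2) (fun n => by simp [hu2]) fun n => ?_).1
  · simp only [map_sum, map_smul, ← hAu, hbb, if_true, smul_eq_mul] at h1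
    rw [Finset.sum_congr rfl fun i _ => inv_mul_cancel₀ (by exact_mod_cast (ht i).ne')] at h1
    simpa using h1
  · rw [← trace_ineq t ht (Matrix.of fun j i => inner ℂ (b j : H) ((T ^ n) (b i))) fun i l => ?_]
    · exact Finset.sum_le_sum fun i _ => mul_le_mul_of_nonneg_left
        (ho.sum_inner_products_le _) (inv_pos.2 (ht i)).le
    · rw [← hbb, ← hinv n, hAx, sum_inner]
      refine Finset.sum_congr rfl fun j _ => ?_
      rw [inner_smul_left, map_mul, Complex.conj_ofReal, mul_assoc]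
      rfl

end Pool.Agent.Lib.MP_f651fd_an
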