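import Pool.Agent.Lib.MP_f651fd_an.Nec

/-!
Every finite rank positive operator whose reciprocal eigenvalues have mean at most one is an
L-asymptotic limit.
-/

open Finset

namespace Pool.Agent.Lib.MP_f651fd_an

theorem L_per (L : BoundedContinuousFunction ℕ ℂ →ₗ[ℂ] ℂ)
    (hshift : ∀ u v : BoundedContinuousFunction ℕ ℂ, (∀ n, v n = u (n + 1)) → L v = L u)
    (hone : ∀ u : BoundedContinuousFunction ℕ ℂ, (∀ n, u n = 1) → L u = 1) {k : ℕ}
    (w : ZMod (k + 1) → ℂ) (u : BoundedContinuousFunction ℕ ℂ) (hu : ∀ n : ℕ, u (n + 1) = w n) :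
    (k + 1) * L u = ∑ r, w r := by
  let v : ZMod (k + 1) → BoundedContinuousFunction ℕ ℂ := fun r =>
    .ofNormedAddCommGroupDiscrete (fun n : ℕ => w (n + r)) (∑ s, ‖w s‖) fun n =>
      single_le_sum (f := fun s => ‖w s‖) (fun _ _ => norm_nonneg _) (mem_univ _)
  have hv : ∀ r (n : ℕ), v r n = w (n + r) := fun _ _ => rfl
  have h1 : ∀ m : ℕ, L (v m) = L u := fun m => by
    induction m with
    | zero => exact hshift _ _ fun n => by simp [hv, hu]
    | succ m ih =>
      refine (hshift _ _ fun n => ?_).trans ih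
      rw [hv, hv]
      push_cast
      ring_nf
  have h2 : ∑ r, v r = (∑ r, w r) • BoundedContinuousFunction.const ℕ (1 : ℂ) := by
    ext n
    simp only [BoundedContinuousFunction.coe_sum, Finset.sum_apply, hv,
      BoundedContinuousFunction.smul_apply, BoundedContinuousFunction.const_apply, smul_eq_mul,
      mul_one]
    exact Fintype.sum_equiv (Equiv.addLeft _) _ _ fun _ => rfl
  have h3 := congrArg L h2
  rw [map_sum, map_smul, hone _ fun _ => rfl, smul_eq_mul, mul_one,
    sum_congr rfl fun r _ => (congrArg (fun r => L (v r)) (ZMod.natCast_zmod_val r).symm).trans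
      (h1 r.val)] at h3
  simpa using h3

theorem suf {H : Type*} [NormedAddCommGroup H] [InnerProductSpace ℂ H] [CompleteSpace H]
    (hH : ¬ FiniteDimensional ℂ H) (L : BoundedContinuousFunction ℕ ℂ →ₗ[ℂ] ℂ)
    (hshift : ∀ u v : BoundedContinuousFunction ℕ ℂ, (∀ n, v n = u (n + 1)) → L v = L u)
    (hone : ∀ u : BoundedContinuousFunction ℕ ℂ, (∀ n, u n = 1) → L u = 1)
    (A : H →L[ℂ] H) {k : ℕ} (e : Fin k → H) (t : Fin k → ℝ) (ho : Orthonormal ℂ e)
    (ht : ∀ i, 0 < t i) (hs : ∑ i, (t i)⁻¹ ≤ k)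
    (hA : ∀ x, A x = ∑ i, ((t i : ℂ) * inner ℂ (e i) x) • e i) :
    ∃ T : H →L[ℂ] H, (∃ M : ℝ, ∀ n : ℕ, ‖T ^ n‖ ≤ M) ∧
      ∀ (x y : H) (u : BoundedContinuousFunction ℕ ℂ),
        (∀ n, u n = inner ℂ ((T ^ n) x) ((T ^ n) y)) → inner ℂ (A x) y = L u := by
  rcases k with _ | k
  · refine ⟨0, ⟨1, fun n => ?_⟩, fun x y u hu => ?_⟩
    · cases n
      · exact ContinuousLinearMap.norm_id_le
      · simp
    · rw [← hshift u 0 fun n => by simp [hu], hA]
      simp
  obtain ⟨f, f1, f2⟩ : ∃ f : H, ‖f‖ = 1 ∧ ∀ j, inner ℂ (e j) f = 0 := by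
    have := FiniteDimensional.span_of_finite ℂ (Set.finite_range e)
    obtain ⟨g, g1, g2⟩ := Submodule.exists_mem_ne_zero_of_ne_bot
      (p := (Submodule.span ℂ (Set.range e))ᗮ) fun h => hH (by
        rw [Submodule.orthogonal_eq_bot_iff.1 h] at this
        exact Submodule.topEquiv.finiteDimensional)
    refine ⟨(‖g‖⁻¹ : ℂ) • g, norm_smul_inv_norm g2, fun j => ?_⟩
    rw [inner_smul_right, g1 _ (Submodule.subset_span ⟨j, rfl⟩), mul_zero]
  change ZMod (k + 1) → H at e
  change ZMod (k + 1) → ℝ at t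
  change ∀ j : ZMod (k + 1), inner ℂ (e j) f = 0 at f2
  change ∀ j : ZMod (k + 1), 0 < t j at ht
  change ∑ i : ZMod (k + 1), (t i)⁻¹ ≤ (k + 1 : ℕ) at hs
  change ∀ x, A x = ∑ i : ZMod (k + 1), ((t i : ℂ) * inner ℂ (e i) x) • e i at hA
  let q : ZMod (k + 1) → ℂ := fun j => (√(t j) : ℝ)
  let c : ZMod (k + 1) → ℝ := fun j => if j = 0 then (k + 1 : ℕ) - ∑ i, (t i)⁻¹ else 0
  let h : ZMod (k + 1) → H := fun j => (q j)⁻¹ • e j + ((√(c j) : ℝ) : ℂ) • f
  have q0 : ∀ j, q j ≠ 0 := fun j => Complex.ofReal_ne_zero.2 (Real.sqrt_pos.2 (ht j)).ne'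
  have q1 : ∀ j, q j * q j = t j := fun j => by
    simp only [q, ← Complex.ofReal_mul, Real.mul_self_sqrt (ht j).le]
  have q2 : ∀ j, starRingEnd ℂ (q j) = q j := fun j => Complex.conj_ofReal _
  have oe : ∀ i j : ZMod (k + 1), inner ℂ (e i) (e j) = if i = j then (1 : ℂ) else 0 :=
    orthonormal_iff_ite.1 ho
  have h1 : ∀ l j, inner ℂ (q l • e l) (h j) = if l = j then (1 : ℂ) else 0 := fun l j => by
    simp only [h, inner_smul_left, inner_add_right, inner_smul_right, f2, oe, q2]
    split_ifs with k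
    · simp [k, q0]
    · simp
  have h2 : ∀ l j, inner ℂ (h l) (h j) = if l = j then (((t l)⁻¹ + c l : ℝ) : ℂ) else 0 :=
    fun l j => by
      have f3 : ∀ j, inner ℂ f (e j) = 0 := fun j => inner_eq_zero_symm.1 (f2 j)
      have f4 : inner ℂ f f = 1 := by rw [inner_self_eq_norm_sq_to_K, f1]; simp
      simp only [h, inner_smul_left, inner_add_right, inner_add_left, inner_smul_right, f2, f3, f4,
        oe, map_inv₀, q2, Complex.conj_ofReal, ← Complex.ofReal_mul, mul_zero, add_zero, zero_add,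
        mul_one]
      split_ifs with k
      · subst k
        rw [Real.mul_self_sqrt (by simp only [c]; split_ifs; exacts [sub_nonneg.2 hs, le_rfl]),
          mul_one, ← mul_inv, q1]
        push_cast
        rfl
      · rcases eq_or_ne l 0 with rfl | l0
        · simp [c, Ne.symm k]
        · simp [c, l0]
  let S : ZMod (k + 1) → H →L[ℂ] H := fun r =>
    ∑ j, (innerSL ℂ (q j • e j)).smulRight (h (j + r + 1))
  have hS : ∀ r x, S r x = ∑ j, inner ℂ (q j • e j) x • h (j + r + 1) := fun r x => by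
    simp only [S, _root_.sum_apply, ContinuousLinearMap.smulRight_apply,
      innerSL_apply_apply]
  have hp : ∀ n : ℕ, S 0 ^ (n + 1) = S n := fun n => by
    induction n with
    | zero => simp
    | succ n ih =>
      ext x
      rw [pow_succ', ih, mul_apply_eq_comp, hS n, map_sum, hS]
      refine sum_congr rfl fun j _ => ?_
      rw [map_smul, hS]
      simp only [h1, ite_smul, one_smul, zero_smul, sum_ite_eq', mem_univ, if_true]
      push_cast
      ring_nf
  refine ⟨S 0, ⟨1 + ∑ r, ‖S r‖, fun n => ?_⟩, fun x y u hu => ?_⟩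
  · have := sum_nonneg fun r (_ : r ∈ univ) => norm_nonneg (S r)
    cases n with
    | zero => exact ContinuousLinearMap.norm_id_le.trans (by linarith)
    | succ n =>
      rw [hp]
      linarith [single_le_sum (f := fun r => ‖S r‖) (fun _ _ => norm_nonneg _) (mem_univ (n : ZMod _))]
  · have k0 : (k + 1 : ℂ) ≠ 0 := by exact_mod_cast k.succ_ne_zero
    refine (mul_left_cancel₀ k0 ((L_per L hshift hone (fun r => ∑ j, starRingEnd ℂ
      (inner ℂ (q j • e j) x) * inner ℂ (q j • e j) y *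
        (((t (j + r + 1))⁻¹ + c (j + r + 1) : ℝ) : ℂ)) u fun n => ?_).trans ?_)).symm
    · rw [hu, hp, hS, hS, sum_inner]
      refine sum_congr rfl fun j _ => ?_
      simp only [inner_sum, inner_smul_left (h _), inner_smul_right, h2, add_left_inj, mul_ite,
        mul_zero, sum_ite_eq, mem_univ, if_true]
      ring
    · rw [sum_comm, hA, sum_inner, mul_sum]
      refine sum_congr rfl fun j _ => ?_
      have e1 : ∑ r, ((t (j + r + 1))⁻¹ + c (j + r + 1)) = (k + 1 : ℕ) := by
        refine (Fintype.sum_equiv ((Equiv.addLeft j).trans (Equiv.addRight 1)) _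
          (fun s => (t s)⁻¹ + c s) fun _ => rfl).trans ?_
        simp [c, sum_add_distrib]
      rw [← mul_sum, ← Complex.ofReal_sum, e1]
      simp only [inner_smul_left, map_mul, q2, ← q1]
      push_cast
      ring

end Pool.Agent.Lib.MP_f651fd_an
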